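import Pool.Agent.Q190.NF.INDK
import Pool.Agent.Q92.AR.All

/-! Job ARTD of project NF: the Artin L-functions as integer combinations. -/

set_option autoImplicit false
set_option linter.unusedSectionVars false

namespace Pool.Agent.Q190.NF

open NumberField IsDedekindDomain Filter Topology Complex
open Pool.Agent.Q92.AR (Continues artinL fixer hol recip hecke brauer artinL_sum_int Unramified
  frob exists_bound)
open Pool.Agent.Q92.RT (induced induced_pair)
open Pool.Agent.H541R3.ART (Irr pair_self pair_ne)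
open Pool.Agent.Q253.NF

section
variable {G : Type} [Group G] [Finite G]

theorem sum_lin [Fintype G] (ψ : G →* ℂˣ) (h : ψ ≠ 1) : ∑ g, ((ψ g : ℂˣ) : ℂ) = 0 := by
  obtain ⟨a, ha⟩ : ∃ a, ψ a ≠ 1 := by
    by_contra hcon
    push Not at hcon
    exact h (MonoidHom.ext hcon)
  have h1 : ((ψ a : ℂˣ) : ℂ) * ∑ g, ((ψ g : ℂˣ) : ℂ) = ∑ g, ((ψ g : ℂˣ) : ℂ) := by
    rw [Finset.mul_sum]
    refine Fintype.sum_equiv (Equiv.mulLeft a) _ _ fun g => ?_
    simp
  have h2 : (((ψ a : ℂˣ) : ℂ) - 1) * ∑ g, ((ψ g : ℂˣ) : ℂ) = 0 := by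
    rw [sub_mul, one_mul, h1, sub_self]
  rcases mul_eq_zero.1 h2 with h3 | h3
  · exfalso
    apply ha
    exact Units.ext (sub_eq_zero.1 h3)
  · exact h3

open Classical in
theorem sum_induced [Fintype G] (H : Subgroup G) (ψ : H →* ℂˣ) :
    ∑ g, induced H ψ g = (if ψ = 1 then 1 else 0) * (Nat.card G : ℂ) := by
  have hm : ∑ᶠ h : H, (fun _ : G => (1 : ℂ)) h * (((ψ h)⁻¹ : ℂˣ) : ℂ) =
      (if ψ = 1 then 1 else 0) * (Nat.card H : ℂ) := by
    have : Fintype H := Fintype.ofFinite H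
    rw [finsum_eq_sum_of_fintype]
    by_cases h : ψ = 1
    · subst h
      simp
    · have h2 : ψ⁻¹ ≠ 1 := fun h3 => h (MonoidHom.ext fun x => by
        have h4 := DFunLike.congr_fun h3 x
        rw [MonoidHom.inv_apply, MonoidHom.one_apply] at h4
        rw [MonoidHom.one_apply]
        exact inv_eq_one.1 h4)
      have h3 := sum_lin ψ⁻¹ h2
      rw [if_neg h, zero_mul, ← h3]
      refine Finset.sum_congr rfl fun g _ => ?_
      rw [one_mul, MonoidHom.inv_apply]
  have := induced_pair H ψ (χ := fun _ => 1) (fun _ _ => rfl) hm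
  simpa using this

open Classical in
theorem sum_irr [Fintype G] {χ : G → ℂ} (hχ : χ ∈ Irr G) :
    ∑ g, χ g = (if ∀ g, χ g = 1 then 1 else 0) * (Nat.card G : ℂ) := by
  by_cases h : ∀ g, χ g = 1
  · rw [if_pos h]
    simp [h]
  · rw [if_neg h, zero_mul]
    have h1 : (fun g => (((1 : G →* ℂˣ) g : ℂˣ) : ℂ)) ∈ Irr G := Pool.Agent.Q7.SZ.lin_irr 1
    have h2 := pair_ne hχ h1 (fun h3 => h fun g => by rw [h3]; simp)
    simpa using h2

end

section
variable {K M : Type} [Field K] [NumberField K] [Field M] [NumberField M] [Algebra K M]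
  [IsGalois K M]

/-- `ks` is linear in the coefficients -/
theorem ks_sum {ι : Type} [Fintype ι] (n : ι → ℤ) (θ : ι → (M ≃ₐ[K] M) → ℂ)
    (χ : (M ≃ₐ[K] M) → ℂ) (h : ∀ g, χ g = ∑ i, (n i : ℂ) * θ i g) (u : ℝ) :
    ks {v : HeightOneSpectrum (𝓞 K) | Unramified M v} (fun v m => χ (frob M v ^ (m + 1))) u =
    ∑ i, (n i : ℂ) * ks {v : HeightOneSpectrum (𝓞 K) | Unramified M v}
      (fun v m => θ i (frob M v ^ (m + 1))) u := by
  classical
  simp only [ks_eq]
  have hs : ∀ i, Summable (kt {v : HeightOneSpectrum (𝓞 K) | Unramified M v}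
      (fun v m => θ i (frob M v ^ (m + 1))) u) := by
    intro i
    obtain ⟨C, hC0, hC⟩ := exists_bound (θ i)
    exact kt_summable (B := C) (fun v n => hC _) u
  have h1 : kt {v : HeightOneSpectrum (𝓞 K) | Unramified M v}
      (fun v m => χ (frob M v ^ (m + 1))) u = fun x => ∑ i, (n i : ℂ) *
        kt {v : HeightOneSpectrum (𝓞 K) | Unramified M v}
          (fun v m => θ i (frob M v ^ (m + 1))) u x := by
    funext x
    unfold kt
    by_cases hx : x.1 ∈ {v : HeightOneSpectrum (𝓞 K) | Unramified M v}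
    · simp only [if_pos hx, h, Finset.sum_mul]
      exact Finset.sum_congr rfl fun i _ => by ring
    · simp only [if_neg hx, mul_zero, Finset.sum_const_zero]
  rw [h1, Summable.tsum_finsetSum (fun i _ => (hs i).mul_left _)]
  exact Finset.sum_congr rfl fun i _ => tsum_mul_left

end

theorem artd : S_ARTD := by
  intro hLTG hRAYD hORDL hRED hCHD hINDK hIDAT K M _ _ _ _ _ _ χ hχ
  classical
  have : Fintype (M ≃ₐ[K] M) := Fintype.ofFinite _
  obtain ⟨ι, hι, H, ψ, n, h⟩ := brauer _ χ hχ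
  have hI := fun i => hIDAT hLTG hRAYD hORDL hRED hCHD hINDK K M (H i) (ψ i)
  choose D hDp hDE hDo using hI
  choose C hC using hDE
  choose f hf hf2 using fun i => hol recip hecke (H i) (ψ i)
  refine ⟨ι, hι, D, n, ?_, ?_, ?_⟩
  · have h1 : ∑ g, χ g = ∑ i, (n i : ℂ) * ∑ g, induced (H i) (ψ i) g := by
      simp only [h, Finset.mul_sum]
      exact Finset.sum_comm
    rw [sum_irr hχ] at h1
    have hG : (Nat.card (M ≃ₐ[K] M) : ℂ) ≠ 0 := by exact_mod_cast Nat.card_pos.ne'
    have h2 : (if ∀ g, χ g = 1 then (1 : ℂ) else 0) =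
        ∑ i, (n i : ℂ) * (if ψ i = 1 then (1 : ℂ) else 0) := by
      apply mul_right_cancel₀ hG
      rw [h1, Finset.sum_mul]
      exact Finset.sum_congr rfl fun i _ => by rw [sum_induced, mul_assoc]
    have h3 : ((∑ i, n i * ((D i).p : ℤ) : ℤ) : ℂ) =
        ((if ∀ g, χ g = 1 then (1 : ℤ) else 0 : ℤ) : ℂ) := by
      push_cast
      rw [h2]
      refine Finset.sum_congr rfl fun i _ => ?_
      rw [hDp i]
      split_ifs <;> simp
    exact_mod_cast h3
  · refine ⟨∑ i, |(n i : ℝ)| * C i, fun u hu => ?_⟩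
    rw [ks_sum n (fun i => induced (H i) (ψ i)) χ h u, ← Finset.sum_sub_distrib, Finset.sum_mul]
    refine (norm_sum_le _ _).trans (Finset.sum_le_sum fun i _ => ?_)
    rw [← mul_sub, norm_mul, mul_assoc]
    have e : ‖(n i : ℂ)‖ = |(n i : ℝ)| := Complex.norm_intCast _
    rw [e]
    exact mul_le_mul_of_nonneg_left (hC i u hu) (abs_nonneg _)
  · intro F hF s hs
    have hP : Continues (fun s => ∏ i, f i s ^ n i) (artinL M χ) := by
      refine ⟨fun s hs => ?_, fun s hs => ?_⟩
      · exact MeromorphicAt.fun_prod fun i _ => ((hf i).1 s hs).fun_zpow _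
      · have h1 : χ = fun g => ∑ i, (n i : ℂ) * induced (H i) (ψ i) g := funext h
        rw [h1, artinL_sum_int Finset.univ n (fun i => induced (H i) (ψ i)) hs]
        exact Finset.prod_congr rfl fun i _ => by rw [(hf i).2 s hs]
    rw [hF.order_eq hP (fun _ _ => rfl) s, meromorphicOrderAt_fun_prod
      (fun i _ => ((hf i).1 s (Set.mem_univ _)).fun_zpow _)]
    have h1 : ∀ i, meromorphicOrderAt (fun s => f i s ^ n i) s =
        ((n i * ((D i).m (s - 1 / 2) : ℤ) - (if s = 1 then n i * ((D i).p : ℤ) else 0) : ℤ) :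
          WithTop ℤ) := by
      intro i
      rw [fun_meromorphicOrderAt_zpow ((hf i).1 s (Set.mem_univ _)), hDo i (f i) (hf i) s hs,
        ← WithTop.coe_mul]
      congr 1
      split_ifs <;> ring
    rw [Finset.sum_congr rfl fun i _ => h1 i, ← WithTop.coe_sum]
    congr 1
    unfold nn
    rw [Finset.sum_sub_distrib]
    congr 1
    split_ifs <;> simp

end Pool.Agent.Q190.NF
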