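import Pool.Agent.Q253.NF.Stm2

/-! Job INDK of project NF: inductivity of the prime sums. -/

set_option autoImplicit false
set_option linter.unusedSectionVars false

namespace Pool.Agent.Q190.NF

open NumberField IsDedekindDomain Filter Topology Pool.Agent.H921R2.TatePole Pool.Agent.W353.NF
  Pool.Agent.Q5.BR
open Pool.Agent.Q92.AR (Unramified frob frob_spec artinL fixer induced_frob summable_geo norm_char exists_bound)
open Pool.Agent.Q92.RT (induced)
open Pool.Agent.Q253.NF

/-- the weight of a prime power -/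
noncomputable def wt (q : ℕ) (n : ℕ) (u : ℝ) : ℝ :=
  Real.log q * Real.exp (-(((n : ℝ) + 1) * Real.log q / 2)) *
      Real.exp (-|u - ((n : ℝ) + 1) * Real.log q|)

theorem wt_nonneg {q : ℕ} (_hq : 2 ≤ q) (n : ℕ) (u : ℝ) : 0 ≤ wt q n u := by
  unfold wt
  have : 0 ≤ Real.log q := Real.log_natCast_nonneg q
  positivity

theorem wt_le {q : ℕ} (hq : 2 ≤ q) (n : ℕ) (u : ℝ) :
    wt q n u ≤ 4 * Real.exp |u| * ((q : ℝ) ^ (-(5 / 4 : ℝ))) ^ (n + 1) := by
  have hq0 : (0 : ℝ) < q := by exact_mod_cast (by omega : 0 < q)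
  set L := Real.log q with hL
  have hL0 : 0 ≤ L := Real.log_natCast_nonneg q
  have hn : (0 : ℝ) ≤ (n : ℝ) := Nat.cast_nonneg n
  have e1 : ((q : ℝ) ^ (-(5 / 4 : ℝ))) ^ (n + 1) = Real.exp (-(5 / 4) * ((n : ℝ) + 1) * L) := by
    rw [Real.rpow_def_of_pos hq0, ← Real.exp_nat_mul]
    congr 1
    push_cast
    ring
  have e2 : L ≤ 4 * Real.exp (((n : ℝ) + 1) * L / 4) := by
    have h1 := Real.add_one_le_exp (((n : ℝ) + 1) * L / 4)
    nlinarith [mul_nonneg hn hL0]
  have e3 : Real.exp (-|u - ((n : ℝ) + 1) * L|) ≤ Real.exp (|u| - ((n : ℝ) + 1) * L) := by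
    apply Real.exp_le_exp.2
    have h1 := abs_sub_abs_le_abs_sub (((n : ℝ) + 1) * L) u
    rw [abs_sub_comm, abs_of_nonneg (by positivity : (0 : ℝ) ≤ ((n : ℝ) + 1) * L)] at h1
    linarith
  unfold wt
  rw [← hL, e1]
  calc L * Real.exp (-(((n : ℝ) + 1) * L / 2)) * Real.exp (-|u - ((n : ℝ) + 1) * L|)
      ≤ (4 * Real.exp (((n : ℝ) + 1) * L / 4)) * Real.exp (-(((n : ℝ) + 1) * L / 2)) *
        Real.exp (|u| - ((n : ℝ) + 1) * L) := by
        gcongr
    _ = 4 * Real.exp |u| * Real.exp (-(5 / 4) * ((n : ℝ) + 1) * L) := by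
        have : Real.exp (((n : ℝ) + 1) * L / 4) * Real.exp (-(((n : ℝ) + 1) * L / 2)) *
            Real.exp (|u| - ((n : ℝ) + 1) * L) =
            Real.exp |u| * Real.exp (-(5 / 4) * ((n : ℝ) + 1) * L) := by
          rw [← Real.exp_add, ← Real.exp_add, ← Real.exp_add]
          congr 1
          ring
        linear_combination 4 * this

/-- the weights of a prime and of its power -/
theorem wt_pow (q f m : ℕ) (hf : 0 < f) (u : ℝ) :
    (f : ℝ) * wt q (f * (m + 1) - 1) u = wt (q ^ f) m u := by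
  have h1 : (((f * (m + 1) - 1 : ℕ) : ℝ) + 1) = (f : ℝ) * ((m : ℝ) + 1) := by
    have : f * (m + 1) - 1 + 1 = f * (m + 1) := Nat.sub_add_cancel (Nat.mul_pos hf m.succ_pos)
    have h2 : (((f * (m + 1) - 1 : ℕ) : ℝ) + 1) = ((f * (m + 1) - 1 + 1 : ℕ) : ℝ) := by
      push_cast; ring
    rw [h2, this]
    push_cast
    ring
  unfold wt
  rw [h1]
  push_cast
  rw [Real.log_pow]
  have e1 : (f : ℝ) * ((m : ℝ) + 1) * Real.log q = ((m : ℝ) + 1) * ((f : ℝ) * Real.log q) := by
    ring
  rw [e1]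
  ring

section
variable {F : Type} [Field F] [NumberField F]

open Classical in
/-- the terms of `ks` -/
noncomputable def kt (P : Set (HeightOneSpectrum (𝓞 F))) (c : HeightOneSpectrum (𝓞 F) → ℕ → ℂ)
    (u : ℝ) (x : HeightOneSpectrum (𝓞 F) × ℕ) : ℂ :=
  if x.1 ∈ P then c x.1 x.2 * ((wt (nm x.1) x.2 u : ℝ) : ℂ) else 0

theorem ks_eq (P : Set (HeightOneSpectrum (𝓞 F))) (c : HeightOneSpectrum (𝓞 F) → ℕ → ℂ)
    (u : ℝ) : ks P c u = ∑' x, kt P c u x := rfl

theorem kt_summable {P : Set (HeightOneSpectrum (𝓞 F))} {c : HeightOneSpectrum (𝓞 F) → ℕ → ℂ}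
    {B : ℝ} (hB : ∀ v n, ‖c v n‖ ≤ B) (u : ℝ) : Summable (kt P c u) := by
  have hB0 : 0 ≤ B ∨ IsEmpty (HeightOneSpectrum (𝓞 F) × ℕ) := by
    by_cases h : Nonempty (HeightOneSpectrum (𝓞 F) × ℕ)
    · obtain ⟨x⟩ := h
      exact Or.inl ((norm_nonneg _).trans (hB x.1 x.2))
    · exact Or.inr (not_nonempty_iff.1 h)
  rcases hB0 with hB0 | hB0
  · refine Summable.of_norm_bounded
      ((summable_geo (F := F) (δ := 5 / 4) (by norm_num)).mul_left (B * (4 * Real.exp |u|)))
      fun x => ?_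
    unfold kt
    split_ifs
    · rw [norm_mul, Complex.norm_real, Real.norm_of_nonneg (wt_nonneg (two_le_nm x.1) _ _),
        mul_assoc]
      exact mul_le_mul (hB _ _) (wt_le (two_le_nm x.1) _ _) (wt_nonneg (two_le_nm x.1) _ _) hB0
    · rw [norm_zero]
      positivity
  · exact summable_of_hasFiniteSupport (Set.toFinite _)

end

theorem indk : S_INDK := by
  intro K F M _ _ _ _ _ _ _ _ _ _ _ _ ψ ψ' hψ u
  classical
  set P : Set (HeightOneSpectrum (𝓞 F)) := {w | Unramified M (w.under (𝓞 K))} with hP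
  set χ : HeightOneSpectrum (𝓞 F) → ℂ := fun w => ((ψ' (frob M w) : ℂˣ) : ℂ) with hχd
  have hχ : ∀ v, ‖χ v‖ ≤ 1 := fun v => (norm_char ψ' _).le
  rw [ks_eq, ks_eq]
  have hR : Summable (kt P (fun w n => χ w ^ (n + 1)) u) := by
    refine kt_summable (B := 1) (fun v n => ?_) u
    rw [norm_pow]
    exact pow_le_one₀ (norm_nonneg _) (hχ v)
  obtain ⟨C, hC0, hC⟩ := exists_bound (induced (fixer K F M) ψ)
  have hL : Summable (kt {v : HeightOneSpectrum (𝓞 K) | Unramified M v}
      (fun v n => induced (fixer K F M) ψ (frob M v ^ (n + 1))) u) :=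
    kt_summable (B := C) (fun v n => hC _) u
  have hRw : ∀ w, HasSum (fun m => kt P (fun w n => χ w ^ (n + 1)) u (w, m))
      (∑' m, kt P (fun w n => χ w ^ (n + 1)) u (w, m)) := fun w =>
    (hR.prod_factor w).hasSum
  have hg := hR.hasSum.prod_fiberwise hRw
  have h3 := hasSum_above (K := K) hg.summable
  rw [hg.tsum_eq] at h3
  have h4 := hL.hasSum.prod_fiberwise
    (g := fun v => ∑ w ∈ above F v, ∑' m, kt P (fun w n => χ w ^ (n + 1)) u (w, m)) ?_
  · exact h4.unique h3
  intro v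
  by_cases hv : Unramified M v
  · have h5 : HasSum (fun n => ∑ w ∈ above F v, (if rdeg K w ∣ n + 1 then
        (rdeg K w : ℂ) * (χ w) ^ ((n + 1) / rdeg K w) else 0) * ((wt (nm v) n u : ℝ) : ℂ))
        (∑ w ∈ above F v, ∑' m, kt P (fun w n => χ w ^ (n + 1)) u (w, m)) := by
      refine hasSum_sum fun w hw => ?_
      have hwv := mem_above.1 hw
      have hwP : w ∈ P := by
        change Unramified M (w.under (𝓞 K))
        rw [hwv]
        exact hv
      have hd : 0 < rdeg K w := rdeg_pos w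
      have hnw : nm w = nm v ^ rdeg K w := by
        have h := absNorm_rdeg (K := K) w
        rw [hwv] at h
        exact h
      have hinj : Function.Injective fun m : ℕ => rdeg K w * (m + 1) - 1 := by
        intro m m' hmm
        have h3 : rdeg K w * (m + 1) - 1 + 1 = rdeg K w * (m + 1) :=
          Nat.sub_add_cancel (Nat.mul_pos hd m.succ_pos)
        have h4 : rdeg K w * (m' + 1) - 1 + 1 = rdeg K w * (m' + 1) :=
          Nat.sub_add_cancel (Nat.mul_pos hd m'.succ_pos)
        have h5 : rdeg K w * (m + 1) = rdeg K w * (m' + 1) := by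
          rw [← h3, ← h4]
          exact congrArg (· + 1) hmm
        have := Nat.eq_of_mul_eq_mul_left hd h5
        omega
      rw [← hinj.hasSum_iff]
      · refine (hRw w).congr_fun fun m => ?_
        simp only [Function.comp]
        have h3 : rdeg K w * (m + 1) - 1 + 1 = rdeg K w * (m + 1) :=
          Nat.sub_add_cancel (Nat.mul_pos hd m.succ_pos)
        rw [h3, if_pos (Dvd.intro _ rfl), Nat.mul_div_cancel_left _ hd]
        unfold kt
        rw [if_pos hwP, hnw, ← wt_pow _ _ _ hd]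
        push_cast
        ring
      · intro n hn
        have : ¬ rdeg K w ∣ n + 1 := by
          rintro ⟨c, hc⟩
          apply hn
          have hc0 : c ≠ 0 := by
            rintro rfl
            omega
          obtain ⟨m, rfl⟩ := Nat.exists_eq_succ_of_ne_zero hc0
          refine ⟨m, ?_⟩
          change rdeg K w * (m + 1) - 1 = n
          rw [← Nat.succ_eq_add_one m, ← hc]
          omega
        simp only [if_neg this, zero_mul]
    refine h5.congr_fun fun n => ?_
    unfold kt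
    rw [if_pos (show (v, n).1 ∈ {v : HeightOneSpectrum (𝓞 K) | Unramified M v} from hv)]
    simp only
    rw [induced_frob hv (frob_spec v) ψ ψ' hψ, Finset.sum_mul]
  · have e1 : (∑ w ∈ above F v, ∑' m, kt P (fun w n => χ w ^ (n + 1)) u (w, m)) = 0 := by
      refine Finset.sum_eq_zero fun w hw => ?_
      have hwP : w ∉ P := fun hwP => hv (by
        have h9 : Unramified M (w.under (𝓞 K)) := hwP
        rwa [mem_above.1 hw] at h9)
      have : ∀ m, kt P (fun w n => χ w ^ (n + 1)) u (w, m) = 0 := fun m => if_neg hwP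
      simp only [this, tsum_zero]
    rw [e1]
    have e2 : (fun n => kt {v : HeightOneSpectrum (𝓞 K) | Unramified M v}
      (fun v n => induced (fixer K F M) ψ (frob M v ^ (n + 1))) u (v, n)) = fun _ => 0 := by
      funext n
      exact if_neg hv
    rw [e2]
    exact hasSum_zero

end Pool.Agent.Q190.NF
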