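import Pool.Agent.Q253.NF.Stm2
import Pool.Agent.Q92.AR.Data

/-! Job PERM of project NF: the permutation characters. -/

set_option autoImplicit false
set_option linter.unusedSectionVars false

namespace Pool.Agent.Q190.NF

open NumberField IsDedekindDomain Filter Topology
open Pool.Agent.Q92.AR (Continues artinL fixer order_zeta fixer_fixedField)
open Pool.Agent.Q92.RT (induced)
open Pool.Agent.Q253.NF

theorem perm : S_PERM := by
  intro K M _ _ _ _ _ _ H f g hf hg s hs
  have h := fixer_fixedField (K := K) (M := M) H
  have hgal : IsGalois (IntermediateField.fixedField H) M := inferInstance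
  have hf' : Continues f (artinL M (induced (fixer K (IntermediateField.fixedField H) M) 1)) := by
    rw [h]
    exact hf
  exact (order_zeta (K := K) (M := M) hg hf' hs).symm

end Pool.Agent.Q190.NF
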